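import Mathlib

/-!
# Coverings of graphs and lifts of Jacobi matrices
-/

namespace Pool.Agent.T9h69.RG

variable {V W : Type*}

/-- `pr : V → W` is a covering map of the graph `T` onto the graph `G`: for every vertex `x` of
`T` it maps the neighbours of `x` bijectively onto the neighbours of `pr x`. -/
def IsCovering (T : SimpleGraph V) (G : SimpleGraph W) (pr : V → W) : Prop :=
  ∀ x, Set.BijOn pr (T.neighborSet x) (G.neighborSet (pr x))

/-- The lift to `T` of the Jacobi matrix with diagonal entries `b` and edge weights `a`: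
`(H u)(x) = b (pr x) u(x) + ∑ a {pr x, pr y} u(y)`, the sum over the neighbours `y` of `x`. -/
noncomputable def liftOp (T : SimpleGraph V) (pr : V → W) (b : W → ℝ) (a : Sym2 W → ℝ)
    (u : V → ℂ) (x : V) : ℂ :=
  (b (pr x) : ℂ) * u x + ∑ᶠ y ∈ T.neighborSet x, (a s(pr x, pr y) : ℂ) * u y

end Pool.Agent.T9h69.RG
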