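import Pool.Agent.T9h69.RG.Op

/-!
# The representers of evaluations on the eigenspace
-/

namespace Pool.Agent.T9h69.RG

open SimpleGraph

variable {V : Type*} {T : SimpleGraph V} [T.LocallyFinite]

/-- a bounded symmetric operator on a tree of bounded degree, with nonzero off diagonal
coefficients -/
structure Sys (T : SimpleGraph V) [T.LocallyFinite] where
  /-- the diagonal part -/
  be : V → ℝ
  /-- the off diagonal part -/
  c : V → V → ℝ
  /-- the bound for the coefficients -/
  M : ℝ
  /-- the bound for the degrees -/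
  De : ℕ
  hT : T.IsTree
  hdeg : ∀ z, Fintype.card (T.neighborSet z) ≤ De
  hM : ∀ y z, |c y z| ≤ M
  hsymm : ∀ y z, c y z = c z y
  hbe : ∀ z, |be z| ≤ M
  hc : ∀ y z, T.Adj y z → c y z ≠ 0

variable (S : Sys T)

/-- the operator as a linear map -/
noncomputable def Sys.A : (V → ℝ) →ₗ[ℝ] (V → ℝ) where
  toFun := Aop T S.be S.c
  map_add' u v := by
    funext z
    simp only [Aop, nsum, Pi.add_apply, mul_add, Finset.sum_add_distrib]
    ring
  map_smul' r u := by
    funext z
    simp only [Aop, nsum, Pi.smul_apply, smul_eq_mul, RingHom.id_apply, mul_add, Finset.mul_sum]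
    congr 1
    · ring
    · exact Finset.sum_congr rfl (fun _ _ => by ring)

lemma Sys.A_apply (u : V → ℝ) (z : V) : S.A u z = Aop T S.be S.c u z := rfl

lemma Sys.A_cont : Continuous (S.A : (V → ℝ) → (V → ℝ)) := by
  refine continuous_pi (fun z => ?_)
  simp only [Sys.A_apply, Aop, nsum]
  fun_prop

/-- the kernel of the operator (not only the square summable functions) -/
noncomputable def Sys.E : Submodule ℝ (V → ℝ) := LinearMap.ker S.A

/-- the functions which vanish at `y` and satisfy the equation away from `y` -/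
noncomputable def Sys.F (y : V) : Submodule ℝ (V → ℝ) where
  carrier := {u | u y = 0 ∧ ∀ z, z ≠ y → S.A u z = 0}
  add_mem' := by
    rintro u v ⟨h1, h2⟩ ⟨h3, h4⟩
    refine ⟨by rw [Pi.add_apply, h1, h3, add_zero], fun z hz => ?_⟩
    rw [map_add, Pi.add_apply, h2 z hz, h4 z hz, add_zero]
  zero_mem' := ⟨rfl, fun z _ => by rw [map_zero]; rfl⟩
  smul_mem' := by
    rintro r u ⟨h1, h2⟩
    refine ⟨by rw [Pi.smul_apply, h1, smul_zero], fun z hz => ?_⟩
    rw [map_smul, Pi.smul_apply, h2 z hz, smul_zero]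

lemma Sys.mem_E {u : V → ℝ} : u ∈ S.E ↔ ∀ z, S.A u z = 0 := by
  rw [Sys.E, LinearMap.mem_ker]
  exact ⟨fun h z => by rw [h]; rfl, fun h => funext h⟩

lemma Sys.mem_F {y : V} {u : V → ℝ} : u ∈ S.F y ↔ u y = 0 ∧ ∀ z, z ≠ y → S.A u z = 0 := Iff.rfl

lemma Sys.E_closed : IsClosed (S.E : Set (V → ℝ)) := by
  have : (S.E : Set (V → ℝ)) = {u | S.A u = 0} := by
    ext u; exact LinearMap.mem_ker
  rw [this]
  exact isClosed_eq S.A_cont continuous_const

lemma Sys.F_closed (y : V) : IsClosed (S.F y : Set (V → ℝ)) := by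
  have : (S.F y : Set (V → ℝ)) = {u | u y = 0} ∩ ⋂ z, ⋂ (_ : z ≠ y), {u | S.A u z = 0} := by
    ext u
    simp [Sys.mem_F]
  rw [this]
  refine IsClosed.inter (isClosed_eq (continuous_apply y) continuous_const) ?_
  refine isClosed_iInter (fun z => isClosed_iInter (fun _ => ?_))
  exact isClosed_eq ((continuous_apply z).comp S.A_cont) continuous_const

/-- the representer on the eigenspace -/
noncomputable def Sys.rep (x : V) : V → ℝ := (exists_rep S.E S.E_closed x).choose

lemma Sys.rep_spec (x : V) : IsRep S.E x (S.rep x) := (exists_rep S.E S.E_closed x).choose_spec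

/-- the diagonal of the eigenprojection -/
noncomputable def Sys.p (x : V) : ℝ := S.rep x x

/-- the energy of a function on a set -/
noncomputable def en (s : Set V) (u : V → ℝ) : ℝ := ip (s.indicator u) (s.indicator u)

/-- the normalised energy beyond `y` of the representer at `x` -/
noncomputable def Sys.Wt (x y : V) : ℝ := en (side S.hT x y) (S.rep x) / S.p x

lemma en_eq (s : Set V) (u : V → ℝ) : en s u = ip u (s.indicator u) := by
  rw [en, ip_indicator, Set.indicator_indicator, Set.inter_self]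

lemma en_compl (s : Set V) {u : V → ℝ} (hu : Sq u) : en s u + en sᶜ u = ip u u := by
  rw [en_eq, en_eq, ← ip_add hu (hu.indicator _) (hu.indicator _), Set.indicator_self_add_compl]

lemma en_smul (s : Set V) (u : V → ℝ) (r : ℝ) : en s (r • u) = r ^ 2 * en s u := by
  have : s.indicator (r • u) = r • s.indicator u := by
    classical
    funext z
    by_cases hz : z ∈ s
    · rw [Pi.smul_apply, Set.indicator_of_mem hz, Set.indicator_of_mem hz, Pi.smul_apply]
    · rw [Pi.smul_apply, Set.indicator_of_notMem hz, Set.indicator_of_notMem hz, smul_zero]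
  rw [en, this, ip_smul, ip_comm, ip_smul, en]
  ring

open Classical in
lemma ip_ite {u : V → ℝ} (x : V) (r : ℝ) : ip u (fun z => if z = x then r else 0) = u x * r := by
  rw [ip, tsum_eq_single x]
  · simp
  · intro z hz
    simp [hz]

open Classical in
lemma sq_ite (x : V) (r : ℝ) : Sq (fun z => if z = x then r else 0) := by
  refine summable_of_ne_finset_zero (s := {x}) (fun z hz => ?_)
  have hz' : z ≠ x := by simpa using hz
  simp [hz']

/-- the Wronskian identity -/
lemma Sys.wronskian {x y : V} (h : T.Adj x y) {u v : V → ℝ} (hu : u ∈ S.E) (hv : v ∈ S.E)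
    (su : Sq u) (sv : Sq v) : u x * v y = u y * v x := by
  classical
  have h1 := green S.hdeg S.hM S.hsymm S.hbe su (sv.indicator (side S.hT x y))
  have hu0 : Aop T S.be S.c u = 0 := LinearMap.mem_ker.mp hu
  have hv0 : Aop T S.be S.c v = 0 := LinearMap.mem_ker.mp hv
  have h2 : Aop T S.be S.c ((side S.hT x y).indicator v) =
      (fun z => if z = x then S.c x y * v y else 0) -
      (fun z => if z = y then S.c y x * v x else 0) := by
    funext z
    rw [Aop_cut S.hT S.be S.c h v z, hv0]
    simp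
  rw [h2, ip_sub su (sq_ite _ _) (sq_ite _ _), ip_ite, ip_ite, hu0, ip_zero, S.hsymm y x] at h1
  have h3 : S.c x y * (u x * v y - u y * v x) = 0 := by linear_combination h1
  have := (mul_eq_zero.mp h3).resolve_left (S.hc x y h)
  linear_combination this

/-- the two normalised energies of an edge -/
lemma Sys.Wt_add {x y : V} (h : T.Adj x y) (hx : S.p x ≠ 0) (hy : S.p y ≠ 0) :
    S.Wt x y + S.Wt y x = 1 := by
  obtain ⟨mx, sx, ex⟩ := S.rep_spec x
  have hrep : S.rep y = (S.rep x y / S.p x) • S.rep x := by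
    refine (S.rep_spec y).unique ⟨S.E.smul_mem _ mx, sx.smul _, fun u hu su => ?_⟩
    rw [ip_comm, ip_smul, ip_comm, ex u hu su]
    have := S.wronskian h hu mx su sx
    have hx' : S.rep x x ≠ 0 := hx
    rw [Sys.p]
    field_simp
    linear_combination this
  obtain ⟨t, ht⟩ : ∃ t, t = S.rep x y / S.p x := ⟨_, rfl⟩
  rw [← ht] at hrep
  have hpy : S.p y = t ^ 2 * S.p x := by
    have h1 : S.p y = t * S.rep x y := by
      rw [Sys.p, hrep]; rfl
    rw [h1, ht]
    field_simp
  have ht0 : t ≠ 0 := by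
    rintro rfl
    exact hy (by rw [hpy]; ring)
  have e1 : en (side S.hT y x) (S.rep y) = t ^ 2 * en (side S.hT y x) (S.rep x) := by
    rw [hrep, en_smul]
  have e2 := en_compl (side S.hT x y) sx
  rw [side_compl S.hT h, (S.rep_spec x).self] at e2
  rw [Sys.Wt, Sys.Wt, e1, hpy]
  have hx' : S.rep x x = S.p x := rfl
  rw [hx'] at e2
  field_simp
  exact e2

lemma Sys.sq_zero_of_p {x : V} (hx : S.p x = 0) {u : V → ℝ} (hu : u ∈ S.E) (su : Sq u) :
    u x = 0 := (S.rep_spec x).apply_eq_zero hx u hu su

/-- cutting off preserves the space `F y` -/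
lemma Sys.F_cut {x y : V} (h : T.Adj y x) {v : V → ℝ} (hv : v ∈ S.F y) :
    (side S.hT y x).indicator v ∈ S.F y := by
  classical
  rw [Sys.mem_F] at hv ⊢
  refine ⟨Set.indicator_of_notMem (notMem_side S.hT h) _, fun z hz => ?_⟩
  rw [Sys.A_apply, Aop_cut S.hT S.be S.c h v z, if_neg hz, hv.1]
  have h1 : (side S.hT y x).indicator (Aop T S.be S.c v) z = 0 := by
    by_cases hz' : z ∈ side S.hT y x
    · rw [Set.indicator_of_mem hz']
      exact hv.2 z hz
    · rw [Set.indicator_of_notMem hz']
  rw [h1]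
  simp

lemma Sys.A_at {y : V} {v : V → ℝ} (hv : v ∈ S.F y) :
    S.A v y = ∑ x : T.neighborSet y, S.c y x * v x := by
  rw [Sys.A_apply, Aop, hv.1, mul_zero, zero_add, nsum]

lemma Sys.mem_E_of_F {y : V} {v : V → ℝ} (hv : v ∈ S.F y) (h : S.A v y = 0) : v ∈ S.E := by
  rw [Sys.mem_E]
  intro z
  by_cases hz : z = y
  · rw [hz, h]
  · exact hv.2 z hz

/-- the normalised energies beyond a vertex at which all eigenfunctions vanish -/
lemma Sys.Wt_sum {y : V} (hy : S.p y = 0) (x0 : T.neighborSet y) (hx0 : S.p x0 ≠ 0) :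
    ∑ x : T.neighborSet y, S.Wt x y = 1 := by
  classical
  have hEF : ∀ u ∈ S.E, Sq u → u ∈ S.F y := by
    intro u hu su
    rw [Sys.mem_F]
    exact ⟨S.sq_zero_of_p hy hu su, fun z _ => (S.mem_E.mp hu) z⟩
  choose q hq using fun x : V => exists_rep (S.F y) (S.F_closed y) x
  have hcut : ∀ x : T.neighborSet y, (side S.hT y x).indicator (q x) = q x := by
    intro x
    refine IsRep.unique (S := S.F y) (x := (x : V)) ⟨S.F_cut x.2 (hq x).1,
      (hq x).2.1.indicator _, fun u hu su => ?_⟩ (hq x)
    rw [ip_indicator, (hq x).2.2 _ (S.F_cut x.2 hu) (su.indicator _),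
      Set.indicator_of_mem (mem_side_self S.hT x.2)]
  have hqz : ∀ (x : T.neighborSet y) (z : V), fs S.hT y z ≠ x → q x z = 0 := by
    intro x z hz
    rw [← hcut x, Set.indicator_of_notMem]
    rwa [mem_side]
  have hqx : ∀ x x' : T.neighborSet y, x ≠ x' → q x x' = 0 := by
    intro x x' hne
    apply hqz
    rw [fs_of_adj S.hT x'.2]
    exact fun h => hne (Subtype.ext h.symm)
  obtain ⟨g, hg⟩ : ∃ g : V → ℝ, g = ∑ x : T.neighborSet y, S.c y x • q x := ⟨_, rfl⟩
  have sg : Sq g := by
    rw [hg]
    exact Sq.sum _ _ (fun x _ => (hq x).2.1.smul _)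
  have mg : g ∈ S.F y := by
    rw [hg]
    exact Submodule.sum_mem _ (fun x _ => Submodule.smul_mem _ _ (hq x).1)
  have ipg : ∀ v ∈ S.F y, Sq v → ip g v = S.A v y := by
    intro v hv sv
    rw [hg, ip_comm, ip_sum Finset.univ sv (fun x : T.neighborSet y => S.c y x • q x)
      (fun x _ => (hq x).2.1.smul _), S.A_at hv]
    refine Finset.sum_congr rfl (fun x _ => ?_)
    rw [ip_smul, ip_comm, (hq x).2.2 v hv sv]
  have gx : ∀ x : T.neighborSet y, g x = S.c y x * q x x := by
    intro x
    rw [hg, Finset.sum_apply, Finset.sum_eq_single x]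
    · rfl
    · intro x' _ hne
      rw [Pi.smul_apply, hqx x' x hne, smul_zero]
    · intro h'; exact absurd (Finset.mem_univ _) h'
  obtain ⟨N, hN⟩ : ∃ N : V → ℝ, ∀ x, N x = S.c y x ^ 2 * q x x := ⟨_, fun _ => rfl⟩
  obtain ⟨M0, hM0⟩ : ∃ M0, M0 = ip g g := ⟨_, rfl⟩
  have hM1 : M0 = ∑ x : T.neighborSet y, N x := by
    rw [hM0, ipg g mg sg, S.A_at mg]
    refine Finset.sum_congr rfl (fun x _ => ?_)
    rw [gx, hN]; ring
  have hNn : ∀ x : T.neighborSet y, 0 ≤ N x := by
    intro x
    rw [hN]
    exact mul_nonneg (sq_nonneg _) (hq x).nonneg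
  have hq0 : q x0 x0 ≠ 0 := by
    intro h0
    have h1 := (hq x0).apply_eq_zero h0 (S.rep x0) (hEF _ (S.rep_spec x0).1 (S.rep_spec x0).2.1)
      (S.rep_spec x0).2.1
    exact hx0 h1
  have hM2 : M0 ≠ 0 := by
    intro h0
    rw [hM1, Finset.sum_eq_zero_iff_of_nonneg (fun x _ => hNn x)] at h0
    have h1 := h0 x0 (Finset.mem_univ _)
    rw [hN] at h1
    exact mul_ne_zero (pow_ne_zero 2 (S.hc y x0 x0.2)) hq0 h1
  have hAq : ∀ x : T.neighborSet y, S.A (q x) y = S.c y x * q x x := by
    intro x
    rw [S.A_at (hq x).1, Finset.sum_eq_single x]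
    · intro x' _ hne
      rw [hqx x x' hne.symm, mul_zero]
    · intro h'; exact absurd (Finset.mem_univ _) h'
  have hrep : ∀ x : T.neighborSet y, S.rep x = q x - (S.c y x * q x x / M0) • g := by
    intro x
    have m1 : q x - (S.c y x * q x x / M0) • g ∈ S.F y :=
      Submodule.sub_mem _ (hq x).1 (Submodule.smul_mem _ _ mg)
    refine (S.rep_spec x).unique ⟨S.mem_E_of_F m1 ?_, (hq x).2.1.sub (sg.smul _),
      fun u hu su => ?_⟩
    · rw [map_sub, map_smul, Pi.sub_apply, Pi.smul_apply, hAq, ← ipg g mg sg, ← hM0, smul_eq_mul]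
      field_simp
      ring
    · have m2 := hEF u hu su
      rw [ip_comm, ip_sub su (hq x).2.1 (sg.smul _), ip_smul, ip_comm, (hq x).2.2 u m2 su,
        ip_comm u g, ipg u m2 su, (S.mem_E.mp hu) y]
      ring
  have hp : ∀ x : T.neighborSet y, S.p x = q x x - (S.c y x * q x x / M0) * (S.c y x * q x x) := by
    intro x
    rw [Sys.p, hrep x, Pi.sub_apply, Pi.smul_apply, gx, smul_eq_mul]
  have hcg : ∀ x : T.neighborSet y, (side S.hT y x).indicator g = S.c y x • q x := by
    intro x
    funext z
    by_cases hz : z ∈ side S.hT y x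
    · rw [Set.indicator_of_mem hz, hg, Finset.sum_apply, Finset.sum_eq_single x]
      · intro x' _ hne
        rw [Pi.smul_apply, hqz x' z, smul_zero]
        rw [mem_side] at hz
        rw [hz]
        exact fun h => hne (Subtype.ext h.symm)
      · intro h'; exact absurd (Finset.mem_univ _) h'
    · rw [Set.indicator_of_notMem hz, Pi.smul_apply, hqz x z (by rwa [mem_side] at hz), smul_zero]
  have hen : ∀ x : T.neighborSet y, en (side S.hT x y) (S.rep x) =
      (S.c y x * q x x / M0) ^ 2 * (M0 - N x) := by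
    intro x
    have e1 : (side S.hT x y).indicator (S.rep x) =
        (-(S.c y x * q x x / M0)) • (side S.hT x y).indicator g := by
      funext z
      by_cases hz : z ∈ side S.hT x y
      · rw [Pi.smul_apply, Set.indicator_of_mem hz, Set.indicator_of_mem hz, hrep, Pi.sub_apply,
          Pi.smul_apply]
        have hz2 : fs S.hT y z ≠ x := (fs_side S.hT x.2.symm z).mp hz
        rw [hqz x z hz2, smul_eq_mul, smul_eq_mul]
        ring
      · rw [Pi.smul_apply, Set.indicator_of_notMem hz, Set.indicator_of_notMem hz, smul_zero]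
    have e2 := en_compl (side S.hT y x) sg
    rw [side_compl S.hT x.2, ← hM0] at e2
    have e3 : en (side S.hT y x) g = N x := by
      rw [en, hcg, ip_smul, ip_comm, ip_smul, (hq x).self, hN]
      ring
    rw [en, e1, ip_smul, ip_comm, ip_smul, ← en]
    rw [e3] at e2
    linear_combination (S.c y x * q x x / M0) ^ 2 * e2
  have hfin : ∀ x : T.neighborSet y, S.Wt x y = N x / M0 := by
    intro x
    rw [Sys.Wt, hen, hp]
    by_cases hr : q x x = 0
    · rw [hN, hr]
      simp
    · have hne : M0 - N x ≠ 0 := by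
        intro h0
        have hall : ∀ x' : T.neighborSet y, x' ≠ x → N x' = 0 := by
          intro x' hne
          have h1 : M0 = N x + ∑ x'' ∈ Finset.univ.erase x, N x'' := by
            rw [hM1, ← Finset.add_sum_erase Finset.univ (fun x : T.neighborSet y => N x)
              (Finset.mem_univ x)]
          have h2 : ∑ x'' ∈ Finset.univ.erase x, N (x'' : V) = 0 := by linarith
          rw [Finset.sum_eq_zero_iff_of_nonneg (fun x _ => hNn x)] at h2
          exact h2 x' (Finset.mem_erase.mpr ⟨hne, Finset.mem_univ _⟩)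
        apply hx0
        rw [hp x0]
        by_cases h3 : x0 = x
        · rw [h3]
          rw [hN] at h0
          field_simp
          linear_combination q x x * h0
        · exfalso
          have h4 := hall x0 h3
          rw [hN] at h4
          exact mul_ne_zero (pow_ne_zero 2 (S.hc y x0 x0.2)) hq0 h4
      rw [hN] at hne ⊢
      have hne2 : q x x - S.c y x * q x x / M0 * (S.c y x * q x x) =
          q x x / M0 * (M0 - S.c y x ^ 2 * q x x) := by
        field_simp
      rw [hne2]
      field_simp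
  rw [Finset.sum_congr rfl (fun x _ => hfin x), ← Finset.sum_div, ← hM1, div_self hM2]

/-- the splitting of the energy of the representer at `x` -/
lemma Sys.Wt_split {x : V} (hx : S.p x ≠ 0) : S.p x + ∑ y : T.neighborSet x, S.Wt x y = 1 := by
  classical
  obtain ⟨mx, sx, ex⟩ := S.rep_spec x
  have h1 : ip (S.rep x) (S.rep x) = S.p x := (S.rep_spec x).self
  have h2 : ∀ z, S.rep x z * S.rep x z = (if z = x then S.p x ^ 2 else 0) +
      ∑ y : T.neighborSet x, (side S.hT x y).indicator (S.rep x) z *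
        (side S.hT x y).indicator (S.rep x) z := by
    intro z
    by_cases hz : z = x
    · rw [if_pos hz, hz, Finset.sum_eq_zero, add_zero, Sys.p]
      · ring
      · intro y _
        rw [Set.indicator_of_notMem (notMem_side S.hT y.2), mul_zero]
    · rw [if_neg hz, zero_add, Finset.sum_eq_single (⟨fs S.hT x z, fs_adj S.hT hz⟩ :
        T.neighborSet x)]
      · rw [Set.indicator_of_mem]
        rw [mem_side]
      · intro y _ hne
        rw [Set.indicator_of_notMem, mul_zero]
        rw [mem_side]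
        intro h
        exact hne (Subtype.ext h.symm)
      · intro h'; exact absurd (Finset.mem_univ _) h'
  have s1 : Summable (fun z => if z = x then S.p x ^ 2 else 0) :=
    summable_of_ne_finset_zero (s := {x}) (fun z hz => by
      have hz' : z ≠ x := by simpa using hz
      simp [hz'])
  have s2 : ∀ y : T.neighborSet x, Summable (fun z => (side S.hT x y).indicator (S.rep x) z *
        (side S.hT x y).indicator (S.rep x) z) := fun y =>
    (sx.indicator _).mul (sx.indicator _)
  have h3 : S.p x = S.p x ^ 2 + ∑ y : T.neighborSet x, en (side S.hT x y) (S.rep x) := by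
    conv_lhs => rw [← h1, ip]
    simp only [h2]
    rw [s1.tsum_add (summable_sum (fun y _ => s2 y)), Summable.tsum_finsetSum (fun y _ => s2 y),
      tsum_ite_eq]
    rfl
  have h4 : S.p x * (S.p x + ∑ y : T.neighborSet x, S.Wt x y) = S.p x * 1 := by
    rw [mul_add, Finset.mul_sum, mul_one]
    conv_rhs => rw [h3]
    rw [sq]
    congr 1
    refine Finset.sum_congr rfl (fun y _ => ?_)
    rw [Sys.Wt]
    field_simp
  exact mul_left_cancel₀ hx h4

/-! ### Invariance -/

section auto
variable (φ : V ≃ V) (hφ : ∀ y z, T.Adj (φ y) (φ z) ↔ T.Adj y z)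
  (hbe : ∀ z, S.be (φ z) = S.be z) (hcc : ∀ y z, S.c (φ y) (φ z) = S.c y z)
include hφ hbe hcc

lemma Sys.A_auto (u : V → ℝ) (z : V) : S.A (u ∘ φ) z = S.A u (φ z) := by
  rw [Sys.A_apply, Sys.A_apply, Aop, Aop, nsum, nsum, hbe, Function.comp_apply]
  congr 1
  let e : T.neighborSet z ≃ T.neighborSet (φ z) :=
    { toFun := fun y => ⟨φ y, (hφ z y).mpr y.2⟩
      invFun := fun y => ⟨φ.symm y, by
        have := y.2
        rw [mem_neighborSet] at this ⊢
        rw [← hφ, Equiv.apply_symm_apply]
        exact this⟩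
      left_inv := fun y => by simp
      right_inv := fun y => by simp }
  rw [← e.sum_comp]
  refine Finset.sum_congr rfl (fun y _ => ?_)
  simp only [e, Equiv.coe_fn_mk, Function.comp_apply]
  rw [hcc]

lemma Sys.rep_auto (x : V) : S.rep (φ x) ∘ φ = S.rep x := by
  obtain ⟨mx, sx, ex⟩ := S.rep_spec (φ x)
  refine IsRep.unique (S := S.E) (x := x) ⟨?_, sx.comp φ, fun u hu su => ?_⟩ (S.rep_spec x)
  · rw [Sys.mem_E] at mx ⊢
    intro z
    rw [S.A_auto φ hφ hbe hcc]
    exact mx _
  · have hφ' : ∀ y z, T.Adj (φ.symm y) (φ.symm z) ↔ T.Adj y z := by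
      intro y z
      rw [← hφ, Equiv.apply_symm_apply, Equiv.apply_symm_apply]
    have hbe' : ∀ z, S.be (φ.symm z) = S.be z := by
      intro z
      rw [← hbe, Equiv.apply_symm_apply]
    have hcc' : ∀ y z, S.c (φ.symm y) (φ.symm z) = S.c y z := by
      intro y z
      rw [← hcc, Equiv.apply_symm_apply, Equiv.apply_symm_apply]
    have m2 : u ∘ φ.symm ∈ S.E := by
      rw [Sys.mem_E] at hu ⊢
      intro z
      rw [S.A_auto φ.symm hφ' hbe' hcc']
      exact hu _
    have h1 := ex _ m2 (su.comp φ.symm)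
    rw [← ip_comp _ _ φ] at h1
    have h2 : (u ∘ φ.symm) ∘ φ = u := by funext z; simp
    rw [h2] at h1
    rw [h1]
    simp

lemma Sys.p_auto (x : V) : S.p (φ x) = S.p x := by
  rw [Sys.p, Sys.p, ← S.rep_auto φ hφ hbe hcc x]
  rfl

lemma Sys.Wt_auto (x y : V) : S.Wt (φ x) (φ y) = S.Wt x y := by
  rw [Sys.Wt, Sys.Wt, S.p_auto φ hφ hbe hcc]
  congr 1
  rw [en, en, ← ip_comp _ _ φ]
  have : (side S.hT (φ x) (φ y)).indicator (S.rep (φ x)) ∘ φ =
      (side S.hT x y).indicator (S.rep x) := by
    classical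
    funext z
    rw [Function.comp_apply, ← S.rep_auto φ hφ hbe hcc x]
    have h1 : φ z ∈ side S.hT (φ x) (φ y) ↔ z ∈ side S.hT x y := by
      rw [mem_side, mem_side, fs_auto S.hT φ hφ, φ.injective.eq_iff]
    by_cases hz : z ∈ side S.hT x y
    · rw [Set.indicator_of_mem hz, Set.indicator_of_mem (h1.mpr hz)]
      rfl
    · rw [Set.indicator_of_notMem hz, Set.indicator_of_notMem (fun h => hz (h1.mp h))]
  rw [this]

end auto

end Pool.Agent.T9h69.RG
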