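import Pool.Agent.T9h69.RG.Tree

/-!
# Square summable functions and representers of evaluations
-/

namespace Pool.Agent.T9h69.RG

variable {V : Type*}

/-- square summable -/
def Sq (u : V → ℝ) : Prop := Summable (fun z => u z ^ 2)

lemma Sq.mul {u v : V → ℝ} (hu : Sq u) (hv : Sq v) : Summable (fun z => u z * v z) := by
  have h : Summable (fun z => (u z ^ 2 + v z ^ 2)) := hu.add hv
  refine Summable.of_norm_bounded h (fun z => ?_)
  rw [Real.norm_eq_abs, abs_le]
  constructor <;> nlinarith [sq_nonneg (u z + v z), sq_nonneg (u z - v z), sq_nonneg (u z),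
    sq_nonneg (v z)]

lemma Sq.add {u v : V → ℝ} (hu : Sq u) (hv : Sq v) : Sq (u + v) := by
  have h : Summable (fun z => 2 * (u z ^ 2 + v z ^ 2)) := (Summable.add hu hv).mul_left 2
  refine Summable.of_nonneg_of_le (fun z => sq_nonneg _) (fun z => ?_) h
  simp only [Pi.add_apply]
  nlinarith [sq_nonneg (u z - v z)]

lemma Sq.smul {u : V → ℝ} (hu : Sq u) (c : ℝ) : Sq (c • u) := by
  have h : Summable (fun z => c ^ 2 * u z ^ 2) := Summable.mul_left (c ^ 2) hu
  refine h.congr (fun z => ?_)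
  simp only [Pi.smul_apply, smul_eq_mul]
  ring

lemma Sq.sub {u v : V → ℝ} (hu : Sq u) (hv : Sq v) : Sq (u - v) := by
  have := hu.add (hv.smul (-1))
  simpa [sub_eq_add_neg] using this

lemma Sq.zero : Sq (0 : V → ℝ) := by
  simp only [Sq, Pi.zero_apply]
  norm_num

lemma Sq.sum {ι : Type*} (s : Finset ι) (u : ι → V → ℝ) (h : ∀ i ∈ s, Sq (u i)) :
    Sq (∑ i ∈ s, u i) := by
  classical
  induction s using Finset.induction_on with
  | empty => simpa using Sq.zero
  | insert i s hi ih =>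
    rw [Finset.sum_insert hi]
    exact (h i (Finset.mem_insert_self _ _)).add
      (ih (fun j hj => h j (Finset.mem_insert_of_mem hj)))

lemma Sq.indicator {u : V → ℝ} (hu : Sq u) (s : Set V) : Sq (s.indicator u) := by
  classical
  refine Summable.of_nonneg_of_le (fun z => sq_nonneg _) (fun z => ?_) hu
  by_cases h : z ∈ s
  · rw [Set.indicator_of_mem h]
  · rw [Set.indicator_of_notMem h]
    nlinarith [sq_nonneg (u z)]

lemma Sq.comp {u : V → ℝ} (hu : Sq u) (φ : V ≃ V) : Sq (u ∘ φ) :=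
  (φ.summable_iff (f := fun z => u z ^ 2)).mpr hu

/-- the inner product -/
noncomputable def ip (u v : V → ℝ) : ℝ := ∑' z, u z * v z

lemma ip_comm (u v : V → ℝ) : ip u v = ip v u := by
  simp only [ip, mul_comm]

lemma ip_add {u v w : V → ℝ} (hu : Sq u) (hv : Sq v) (hw : Sq w) :
    ip u (v + w) = ip u v + ip u w := by
  simp only [ip, Pi.add_apply, mul_add]
  exact (hu.mul hv).tsum_add (hu.mul hw)

lemma ip_smul (u v : V → ℝ) (c : ℝ) : ip u (c • v) = c * ip u v := by
  simp only [ip, Pi.smul_apply, smul_eq_mul]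
  rw [← tsum_mul_left]
  congr 1
  funext z
  ring

lemma ip_sub {u v w : V → ℝ} (hu : Sq u) (hv : Sq v) (hw : Sq w) :
    ip u (v - w) = ip u v - ip u w := by
  simp only [ip, Pi.sub_apply, mul_sub]
  exact (hu.mul hv).tsum_sub (hu.mul hw)

lemma ip_zero (u : V → ℝ) : ip u 0 = 0 := by simp [ip]

lemma ip_sum {ι : Type*} (s : Finset ι) {u : V → ℝ} (hu : Sq u) (v : ι → V → ℝ)
    (h : ∀ i ∈ s, Sq (v i)) : ip u (∑ i ∈ s, v i) = ∑ i ∈ s, ip u (v i) := by
  classical
  induction s using Finset.induction_on with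
  | empty => simp [ip_zero]
  | insert i s hi ih =>
    rw [Finset.sum_insert hi, Finset.sum_insert hi,
      ip_add hu (h i (Finset.mem_insert_self _ _))
        (Sq.sum s v (fun j hj => h j (Finset.mem_insert_of_mem hj))),
      ih (fun j hj => h j (Finset.mem_insert_of_mem hj))]

lemma ip_self_nonneg (u : V → ℝ) : 0 ≤ ip u u := tsum_nonneg (fun _ => mul_self_nonneg _)

lemma eq_zero_of_ip_self {u : V → ℝ} (hu : Sq u) (h : ip u u = 0) : u = 0 := by
  funext z
  have h1 := (hu.mul hu).le_tsum z (fun j _ => mul_self_nonneg _)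
  rw [show (∑' z, u z * u z) = 0 from h] at h1
  have := le_antisymm h1 (mul_self_nonneg _)
  simpa using this

lemma ip_comp (u v : V → ℝ) (φ : V ≃ V) : ip (u ∘ φ) (v ∘ φ) = ip u v :=
  φ.tsum_eq (fun z => u z * v z)

lemma ip_indicator (u v : V → ℝ) (s : Set V) : ip (s.indicator u) v = ip u (s.indicator v) := by
  classical
  simp only [ip]
  congr 1
  funext z
  by_cases h : z ∈ s
  · rw [Set.indicator_of_mem h, Set.indicator_of_mem h]
  · rw [Set.indicator_of_notMem h, Set.indicator_of_notMem h]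
    ring

/-- `w` represents the evaluation at `x` on the square summable functions of `S` -/
def IsRep (S : Submodule ℝ (V → ℝ)) (x : V) (w : V → ℝ) : Prop :=
  w ∈ S ∧ Sq w ∧ ∀ u ∈ S, Sq u → ip w u = u x

lemma IsRep.unique {S : Submodule ℝ (V → ℝ)} {x : V} {w w' : V → ℝ} (h : IsRep S x w)
    (h' : IsRep S x w') : w = w' := by
  have h1 := S.sub_mem h.1 h'.1
  have h2 := h.2.1.sub h'.2.1
  have e1 := h.2.2 _ h1 h2
  have e2 := h'.2.2 _ h1 h2
  have e3 : ip (w - w') (w - w') = 0 := by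
    rw [ip_sub h2 h.2.1 h'.2.1, ip_comm _ w, ip_comm _ w', e1, e2, sub_self]
  exact sub_eq_zero.mp (eq_zero_of_ip_self h2 e3)

lemma IsRep.self {S : Submodule ℝ (V → ℝ)} {x : V} {w : V → ℝ} (h : IsRep S x w) :
    ip w w = w x := h.2.2 w h.1 h.2.1

lemma IsRep.nonneg {S : Submodule ℝ (V → ℝ)} {x : V} {w : V → ℝ} (h : IsRep S x w) :
    0 ≤ w x := by
  rw [← h.self]; exact ip_self_nonneg w

lemma IsRep.eq_zero {S : Submodule ℝ (V → ℝ)} {x : V} {w : V → ℝ} (h : IsRep S x w)
    (h0 : w x = 0) : w = 0 := eq_zero_of_ip_self h.2.1 (by rw [h.self, h0])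

lemma IsRep.apply_eq_zero {S : Submodule ℝ (V → ℝ)} {x : V} {w : V → ℝ} (h : IsRep S x w)
    (h0 : w x = 0) (u : V → ℝ) (hu : u ∈ S) (hs : Sq u) : u x = 0 := by
  rw [← h.2.2 u hu hs, h.eq_zero h0, ip_comm, ip_zero]

lemma exists_rep (S : Submodule ℝ (V → ℝ)) (hS : IsClosed (S : Set (V → ℝ))) (x : V) :
    ∃ w, IsRep S x w := by
  classical
  let H := lp (fun _ : V => ℝ) 2
  let co : H →ₗ[ℝ] (V → ℝ) :=
    { toFun := fun f => f
      map_add' := fun f g => lp.coeFn_add f g
      map_smul' := fun c f => lp.coeFn_smul c f }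
  have hco : Continuous co := lp.uniformContinuous_coe.continuous
  let Kk : Submodule ℝ H := S.comap co
  have hK : IsClosed (Kk : Set H) := hS.preimage hco
  have : CompleteSpace Kk := hK.completeSpace_coe
  have sq_iff : ∀ f : V → ℝ, Memℓp f 2 ↔ Sq f := by
    intro f
    rw [memℓp_gen_iff (by norm_num)]
    simp [Sq]
  let w : H := Kk.starProjection (lp.single 2 x 1)
  have hw : w ∈ Kk := Kk.starProjection_apply_mem _
  refine ⟨w, hw, (sq_iff _).mp w.2, fun u hu hs => ?_⟩
  let u' : H := ⟨u, (sq_iff u).mpr hs⟩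
  have hu' : u' ∈ Kk := hu
  have h1 : inner ℝ w u' = inner ℝ (lp.single 2 x (1 : ℝ)) u' := by
    have := Kk.starProjection_inner_eq_zero (lp.single 2 x 1) u' hu'
    rw [inner_sub_left, sub_eq_zero] at this
    exact this.symm
  have h2 : inner ℝ w u' = ip (w : V → ℝ) u := by
    rw [lp.inner_eq_tsum, ip]
    congr 1
    funext z
    simp only [u', RCLike.inner_apply, conj_trivial]
    ring
  rw [← h2, h1, lp.inner_single_left]
  simp [u']

end Pool.Agent.T9h69.RG
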