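import Pool.Agent.T9h69.RG.Key

/-!
# Counting on the complete bipartite graph
-/

namespace Pool.Agent.T9h69.RG

open SimpleGraph

/-- the numerical core -/
lemma count {r g : ℕ} (hg : 2 ≤ g) (hrg : g < r) (R : Fin r → ℝ) (Gn : Fin g → ℝ)
    (Q : Fin r → Fin g → ℝ) (Q' : Fin g → Fin r → ℝ) (hR : ∀ i, 0 ≤ R i) (hG : ∀ j, 0 ≤ Gn j)
    (h0 : ∀ i j, R i = 0 → Q i j = 0) (h0' : ∀ j i, Gn j = 0 → Q' j i = 0)
    (h1 : ∀ i j, R i ≠ 0 → Gn j ≠ 0 → Q i j + Q' j i = 1)
    (h2 : ∀ j, Gn j = 0 → (∃ i, R i ≠ 0) → ∑ i, Q i j = 1)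
    (h3 : ∀ i, R i = 0 → (∃ j, Gn j ≠ 0) → ∑ j, Q' j i = 1)
    (h4 : ∀ i, R i ≠ 0 → R i + ∑ j, Q i j = 1)
    (h5 : ∀ j, Gn j ≠ 0 → Gn j + ∑ i, Q' j i = 1) : ∀ j, Gn j = 0 := by
  classical
  by_contra hcon
  push Not at hcon
  obtain ⟨j0, hj0⟩ := hcon
  obtain ⟨a, ha⟩ : ∃ a : ℕ, a = (Finset.univ.filter (fun i => R i ≠ 0)).card := ⟨_, rfl⟩
  obtain ⟨b, hb⟩ : ∃ b : ℕ, b = (Finset.univ.filter (fun j => Gn j ≠ 0)).card := ⟨_, rfl⟩
  have har : a ≤ r := by
    rw [ha]; exact (Finset.card_le_univ _).trans (by simp)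
  have hbg : b ≤ g := by
    rw [hb]; exact (Finset.card_le_univ _).trans (by simp)
  have hb1 : 1 ≤ b := by
    rw [hb, Nat.one_le_iff_ne_zero, Finset.card_ne_zero]
    exact ⟨j0, by simp [hj0]⟩
  have sA : ∑ i : Fin r, (if R i ≠ 0 then (1 : ℝ) else 0) = a := by
    rw [Finset.sum_boole, ha]
  have sB : ∑ j : Fin g, (if Gn j ≠ 0 then (1 : ℝ) else 0) = b := by
    rw [Finset.sum_boole, hb]
  have sA' : ∑ i : Fin r, (if R i = 0 then (1 : ℝ) else 0) = r - a := by
    rw [← sA]
    have : (r : ℝ) = ∑ i : Fin r, (1 : ℝ) := by simp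
    rw [this, ← Finset.sum_sub_distrib]
    refine Finset.sum_congr rfl (fun i _ => ?_)
    by_cases h : R i = 0 <;> simp [h]
  have sB' : ∑ j : Fin g, (if Gn j = 0 then (1 : ℝ) else 0) = g - b := by
    rw [← sB]
    have : (g : ℝ) = ∑ i : Fin g, (1 : ℝ) := by simp
    rw [this, ← Finset.sum_sub_distrib]
    refine Finset.sum_congr rfl (fun i _ => ?_)
    by_cases h : Gn i = 0 <;> simp [h]
  have tR : ∑ i, R i = a - ∑ i, ∑ j, Q i j := by
    rw [← sA, ← Finset.sum_sub_distrib]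
    refine Finset.sum_congr rfl (fun i _ => ?_)
    by_cases h : R i = 0
    · rw [if_neg (by simpa using h), Finset.sum_eq_zero (fun j _ => h0 i j h), h, sub_zero]
    · rw [if_pos h]
      linarith [h4 i h]
  have tG : ∑ j, Gn j = b - ∑ j, ∑ i, Q' j i := by
    rw [← sB, ← Finset.sum_sub_distrib]
    refine Finset.sum_congr rfl (fun j _ => ?_)
    by_cases h : Gn j = 0
    · rw [if_neg (by simpa using h), Finset.sum_eq_zero (fun i _ => h0' j i h), h, sub_zero]
    · rw [if_pos h]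
      linarith [h5 j h]
  have key : ∀ i j, Q i j + Q' j i =
      (if R i ≠ 0 then (1 : ℝ) else 0) * (if Gn j ≠ 0 then (1 : ℝ) else 0) +
      (if Gn j = 0 then (1 : ℝ) else 0) * Q i j + (if R i = 0 then (1 : ℝ) else 0) * Q' j i := by
    intro i j
    by_cases h : R i = 0 <;> by_cases h' : Gn j = 0
    · simp [h, h', h0 i j h, h0' j i h']
    · simp [h, h', h0 i j h]
    · simp [h, h', h0' j i h']
    · simp [h, h', h1 i j h h']
  have e1 : ∑ i, ∑ j, Q i j + ∑ j, ∑ i, Q' j i = a * b +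
      ∑ j, (if Gn j = 0 then (1 : ℝ) else 0) * ∑ i, Q i j +
      ∑ i, (if R i = 0 then (1 : ℝ) else 0) * ∑ j, Q' j i := by
    rw [Finset.sum_comm (f := fun j i => Q' j i), ← Finset.sum_add_distrib]
    simp only [← Finset.sum_add_distrib, key]
    simp only [Finset.sum_add_distrib]
    congr 1
    · congr 1
      · rw [← sA, ← sB, Finset.sum_mul_sum]
      · rw [Finset.sum_comm]
        refine Finset.sum_congr rfl (fun j _ => ?_)
        rw [Finset.mul_sum]
    · refine Finset.sum_congr rfl (fun i _ => ?_)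
      rw [Finset.mul_sum]
  have e3 : ∑ i, (if R i = 0 then (1 : ℝ) else 0) * ∑ j, Q' j i = r - a := by
    rw [← sA']
    refine Finset.sum_congr rfl (fun i _ => ?_)
    by_cases h : R i = 0
    · rw [if_pos h, h3 i h ⟨j0, hj0⟩, mul_one]
    · rw [if_neg h, zero_mul]
  have hpos : 0 < ∑ j, Gn j := by
    have h6 : Gn j0 ≤ ∑ j, Gn j :=
      Finset.single_le_sum (f := Gn) (fun j _ => hG j) (Finset.mem_univ j0)
    have h7 : 0 < Gn j0 := lt_of_le_of_ne (hG j0) (Ne.symm hj0)
    linarith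
  have hnn : 0 ≤ ∑ i, R i := Finset.sum_nonneg (fun i _ => hR i)
  rcases Nat.eq_zero_or_pos a with ha0 | ha0
  · -- no red vertices
    have hall : ∀ i, R i = 0 := by
      intro i
      by_contra hi
      have : a ≠ 0 := by
        rw [ha, Finset.card_ne_zero]
        exact ⟨i, by simp [hi]⟩
      exact this ha0
    have e4 : ∑ i, ∑ j, Q i j = 0 :=
      Finset.sum_eq_zero (fun i _ => Finset.sum_eq_zero (fun j _ => h0 i j (hall i)))
    have e5 : ∑ j, (if Gn j = 0 then (1 : ℝ) else 0) * ∑ i, Q i j = 0 := by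
      refine Finset.sum_eq_zero (fun j _ => ?_)
      rw [Finset.sum_eq_zero (fun i _ => h0 i j (hall i)), mul_zero]
    rw [e4, e5, e3, ha0] at e1
    push_cast at e1
    have h8 : (b : ℝ) ≤ g := by exact_mod_cast hbg
    have h9 : (g : ℝ) < r := by exact_mod_cast hrg
    linarith
  · have hex : ∃ i, R i ≠ 0 := by
      have : (Finset.univ.filter (fun i => R i ≠ 0)).Nonempty := by
        rw [← Finset.card_pos, ← ha]; exact ha0
      obtain ⟨i, hi⟩ := this
      exact ⟨i, (Finset.mem_filter.mp hi).2⟩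
    have e5 : ∑ j, (if Gn j = 0 then (1 : ℝ) else 0) * ∑ i, Q i j = g - b := by
      rw [← sB']
      refine Finset.sum_congr rfl (fun j _ => ?_)
      by_cases h : Gn j = 0
      · rw [if_pos h, h2 j h hex, mul_one]
      · rw [if_neg h, zero_mul]
    rw [e5, e3] at e1
    have h8 : (0 : ℝ) < 2 * a + 2 * b - a * b - g - r := by linarith
    have h9 : (0 : ℤ) < 2 * a + 2 * b - a * b - g - r := by exact_mod_cast h8
    have h10 : (0 : ℤ) ≤ ((a : ℤ) - 1) * ((b : ℤ) - 1) :=
      mul_nonneg (by omega) (by omega)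
    have h11 : (a : ℤ) = r := by nlinarith
    have h12 : (b : ℤ) = g := by nlinarith
    rw [h11, h12] at h9
    have h13 : (0 : ℤ) < ((r : ℤ) - 1) * ((g : ℤ) - 1) := mul_pos (by omega) (by omega)
    have h14 : (0 : ℤ) ≤ ((r : ℤ) - 2) * ((g : ℤ) - 2) := mul_nonneg (by omega) (by omega)
    nlinarith

/-! ### The lift of a Jacobi matrix -/

variable {V W : Type*}

/-- a covering of a finite graph is locally finite -/
@[instance_reducible]
noncomputable def lfin [Finite W] {T : SimpleGraph V} {G : SimpleGraph W} {pr : V → W}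
    (hc : IsCovering T G pr) : T.LocallyFinite := fun x =>
  @Fintype.ofFinite _ (Finite.of_injective (fun y : T.neighborSet x => pr y)
    (fun y z h => Subtype.ext (hc.inj y.2 z.2 h)))

section
variable [Fintype W] [DecidableEq W] {T : SimpleGraph V} {G : SimpleGraph W} {pr : V → W}

/-- the system of the lift of a Jacobi matrix minus `lam` -/
noncomputable def mkSys [T.LocallyFinite] (hT : T.IsTree) (hc : IsCovering T G pr) (b : W → ℝ)
    (a : Sym2 W → ℝ) (ha : ∀ e ∈ G.edgeSet, 0 < a e) (lam : ℝ) : Sys T where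
  be z := b (pr z) - lam
  c y z := a s(pr y, pr z)
  M := |lam| + ∑ w, |b w| + ∑ e, |a e|
  De := Fintype.card W
  hT := hT
  hdeg z := Fintype.card_le_of_injective (fun y : T.neighborSet z => pr y)
    (fun y z h => Subtype.ext (hc.inj y.2 z.2 h))
  hM y z := by
    have h1 : |a s(pr y, pr z)| ≤ ∑ e, |a e| :=
      Finset.single_le_sum (f := fun e => |a e|) (fun e _ => abs_nonneg _) (Finset.mem_univ _)
    have h2 : 0 ≤ ∑ w, |b w| := Finset.sum_nonneg (fun _ _ => abs_nonneg _)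
    have h3 := abs_nonneg lam
    linarith
  hsymm y z := by rw [Sym2.eq_swap]
  hbe z := by
    have h1 : |b (pr z)| ≤ ∑ w, |b w| :=
      Finset.single_le_sum (f := fun w => |b w|) (fun e _ => abs_nonneg _) (Finset.mem_univ _)
    have h2 : 0 ≤ ∑ e, |a e| := Finset.sum_nonneg (fun _ _ => abs_nonneg _)
    have h3 := abs_sub (b (pr z)) lam
    linarith
  hc y z h := (ha _ (by rw [mem_edgeSet]; exact hc.adj h)).ne'

end

section assemble
variable {r g : ℕ} {T : SimpleGraph V} {pr : V → Fin r ⊕ Fin g}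

lemma sum_red [T.LocallyFinite] (hc : IsCovering T (completeBipartiteGraph (Fin r) (Fin g)) pr)
    {x : V} {i : Fin r} (hx : pr x = Sum.inl i) (f : V → ℝ) :
    ∑ y : T.neighborSet x, f y = ∑ j : Fin g, f (nb T pr x (Sum.inr j)) := by
  have hadj : ∀ j : Fin g, (completeBipartiteGraph (Fin r) (Fin g)).Adj (pr x) (Sum.inr j) := by
    intro j; rw [hx]; simp
  let e : Fin g → T.neighborSet x := fun j => ⟨nb T pr x (Sum.inr j), (nb_spec hc (hadj j)).1⟩
  have he : Function.Bijective e := by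
    constructor
    · intro j j' h
      have h1 : nb T pr x (Sum.inr j) = nb T pr x (Sum.inr j') := congrArg Subtype.val h
      have h2 := congrArg pr h1
      rw [(nb_spec hc (hadj j)).2, (nb_spec hc (hadj j')).2] at h2
      exact Sum.inr.inj h2
    · intro y
      have h1 := hc.adj y.2
      rw [hx] at h1
      rcases hy : pr y with i' | j
      · rw [hy] at h1; simp at h1
      · refine ⟨j, Subtype.ext ?_⟩
        have h2 := nb_eq hc y.2
        rw [hy] at h2
        exact h2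
  exact ((Equiv.ofBijective e he).sum_comp (fun y : T.neighborSet x => f y)).symm

lemma sum_green [T.LocallyFinite] (hc : IsCovering T (completeBipartiteGraph (Fin r) (Fin g)) pr)
    {x : V} {j : Fin g} (hx : pr x = Sum.inr j) (f : V → ℝ) :
    ∑ y : T.neighborSet x, f y = ∑ i : Fin r, f (nb T pr x (Sum.inl i)) := by
  have hadj : ∀ i : Fin r, (completeBipartiteGraph (Fin r) (Fin g)).Adj (pr x) (Sum.inl i) := by
    intro i; rw [hx]; simp
  let e : Fin r → T.neighborSet x := fun i => ⟨nb T pr x (Sum.inl i), (nb_spec hc (hadj i)).1⟩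
  have he : Function.Bijective e := by
    constructor
    · intro i i' h
      have h1 : nb T pr x (Sum.inl i) = nb T pr x (Sum.inl i') := congrArg Subtype.val h
      have h2 := congrArg pr h1
      rw [(nb_spec hc (hadj i)).2, (nb_spec hc (hadj i')).2] at h2
      exact Sum.inl.inj h2
    · intro y
      have h1 := hc.adj y.2
      rw [hx] at h1
      rcases hy : pr y with i | j'
      · refine ⟨i, Subtype.ext ?_⟩
        have h2 := nb_eq hc y.2
        rw [hy] at h2
        exact h2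
      · rw [hy] at h1; simp at h1
  exact ((Equiv.ofBijective e he).sum_comp (fun y : T.neighborSet x => f y)).symm

lemma surj_pr (hT : T.IsTree) (hc : IsCovering T (completeBipartiteGraph (Fin r) (Fin g)) pr)
    (hr0 : 0 < r) (hg0 : 0 < g) (w : Fin r ⊕ Fin g) : ∃ x, pr x = w := by
  obtain ⟨x0⟩ := hT.connected.nonempty
  have step : ∀ (x : V) (w : Fin r ⊕ Fin g),
      (completeBipartiteGraph (Fin r) (Fin g)).Adj (pr x) w → ∃ y, pr y = w := fun x w h =>
    ⟨_, (nb_spec hc h).2⟩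
  have hred : ∃ x, pr x = Sum.inl ⟨0, hr0⟩ := by
    rcases h : pr x0 with i | j
    · obtain ⟨y, hy⟩ := step x0 (Sum.inr ⟨0, hg0⟩) (by rw [h]; simp)
      exact step y _ (by rw [hy]; simp)
    · exact step x0 _ (by rw [h]; simp)
  have hgreen : ∃ x, pr x = Sum.inr ⟨0, hg0⟩ := by
    obtain ⟨x, hx⟩ := hred
    exact step x _ (by rw [hx]; simp)
  rcases w with i | j
  · obtain ⟨x, hx⟩ := hgreen
    exact step x _ (by rw [hx]; simp)
  · obtain ⟨x, hx⟩ := hred
    exact step x _ (by rw [hx]; simp)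

/-- For real square summable solutions. -/
theorem green_zero (hg : 2 ≤ g) (hrg : g < r) [T.LocallyFinite] (hT : T.IsTree)
    (hc : IsCovering T (completeBipartiteGraph (Fin r) (Fin g)) pr) (b : Fin r ⊕ Fin g → ℝ)
    (a : Sym2 (Fin r ⊕ Fin g) → ℝ)
    (ha : ∀ e ∈ (completeBipartiteGraph (Fin r) (Fin g)).edgeSet, 0 < a e) (lam : ℝ)
    {u : V → ℝ} (hu : u ∈ (mkSys hT hc b a ha lam).E) (su : Sq u) {x : V} {j : Fin g}
    (hx : pr x = Sum.inr j) : u x = 0 := by
  obtain ⟨S, hS⟩ : ∃ S, S = mkSys hT hc b a ha lam := ⟨_, rfl⟩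
  have hSbe : ∀ z, S.be z = b (pr z) - lam := by rw [hS]; intro z; rfl
  have hSc : ∀ y z, S.c y z = a s(pr y, pr z) := by rw [hS]; intro y z; rfl
  rw [← hS] at hu
  have pinv : ∀ x x', pr x' = pr x → S.p x' = S.p x := by
    intro x x' h
    obtain ⟨φ, hφ, hφp, rfl⟩ := exists_auto hT hc h
    exact S.p_auto φ hφ (fun z => by rw [hSbe, hSbe, hφp])
      (fun y z => by rw [hSc, hSc, hφp, hφp]) x
  have winv : ∀ x x' y y', pr x' = pr x → pr y' = pr y → T.Adj x y → T.Adj x' y' →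
      S.Wt x' y' = S.Wt x y := by
    intro x x' y y' h h' hxy hxy'
    obtain ⟨φ, hφ, hφp, rfl⟩ := exists_auto hT hc h
    have h1 : y' = φ y := hc.inj hxy' ((hφ x y).mpr hxy) (by rw [h', hφp])
    rw [h1]
    exact S.Wt_auto φ hφ (fun z => by rw [hSbe, hSbe, hφp])
      (fun y z => by rw [hSc, hSc, hφp, hφp]) x y
  choose sg hsg using surj_pr hT hc (by omega) (by omega)
  have aRG : ∀ (x : V) (i : Fin r) (j : Fin g), pr x = Sum.inl i →
      T.Adj x (nb T pr x (Sum.inr j)) ∧ pr (nb T pr x (Sum.inr j)) = Sum.inr j :=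
    fun x i j h => nb_spec hc (by rw [h]; simp)
  have aGR : ∀ (x : V) (i : Fin r) (j : Fin g), pr x = Sum.inr j →
      T.Adj x (nb T pr x (Sum.inl i)) ∧ pr (nb T pr x (Sum.inl i)) = Sum.inl i :=
    fun x i j h => nb_spec hc (by rw [h]; simp)
  have hcount := count hg hrg (fun i => S.p (sg (Sum.inl i))) (fun j => S.p (sg (Sum.inr j)))
    (fun i j => S.Wt (sg (Sum.inl i)) (nb T pr (sg (Sum.inl i)) (Sum.inr j)))
    (fun j i => S.Wt (sg (Sum.inr j)) (nb T pr (sg (Sum.inr j)) (Sum.inl i)))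
    (fun i => (S.rep_spec _).nonneg) (fun j => (S.rep_spec _).nonneg)
    (fun i j h => by
      rw [Sys.Wt, h, div_zero])
    (fun j i h => by
      rw [Sys.Wt, h, div_zero])
    (fun i j h h' => by
      obtain ⟨h1, h2⟩ := aRG (sg (Sum.inl i)) i j (hsg _)
      obtain ⟨h3, h4⟩ := aGR (sg (Sum.inr j)) i j (hsg _)
      rw [winv (nb T pr (sg (Sum.inl i)) (Sum.inr j)) (sg (Sum.inr j)) (sg (Sum.inl i))
        (nb T pr (sg (Sum.inr j)) (Sum.inl i)) (by rw [hsg, h2]) (by rw [h4, hsg]) h1.symm h3]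
      refine S.Wt_add h1 h ?_
      rw [pinv (sg (Sum.inr j)) _ (by rw [h2, hsg])]
      exact h')
    (fun j h ⟨i0, hi0⟩ => by
      have h1 := aGR (sg (Sum.inr j)) i0 j (hsg _)
      have h2 := S.Wt_sum h ⟨nb T pr (sg (Sum.inr j)) (Sum.inl i0), h1.1⟩ (by
        rw [pinv (sg (Sum.inl i0)) _ (by rw [hsg]; exact h1.2)]
        exact hi0)
      rw [sum_green hc (hsg _) (fun z => S.Wt z (sg (Sum.inr j)))] at h2
      rw [← h2]
      refine Finset.sum_congr rfl (fun i _ => ?_)
      obtain ⟨h3, h4⟩ := aGR (sg (Sum.inr j)) i j (hsg _)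
      obtain ⟨h5, h6⟩ := aRG (sg (Sum.inl i)) i j (hsg _)
      exact winv _ _ _ _ (by rw [h4, hsg]) (by rw [h6, hsg]) h3.symm h5)
    (fun i h ⟨j0, hj0⟩ => by
      have h1 := aRG (sg (Sum.inl i)) i j0 (hsg _)
      have h2 := S.Wt_sum h ⟨nb T pr (sg (Sum.inl i)) (Sum.inr j0), h1.1⟩ (by
        rw [pinv (sg (Sum.inr j0)) _ (by rw [hsg]; exact h1.2)]
        exact hj0)
      rw [sum_red hc (hsg _) (fun z => S.Wt z (sg (Sum.inl i)))] at h2
      rw [← h2]
      refine Finset.sum_congr rfl (fun j _ => ?_)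
      obtain ⟨h3, h4⟩ := aRG (sg (Sum.inl i)) i j (hsg _)
      obtain ⟨h5, h6⟩ := aGR (sg (Sum.inr j)) i j (hsg _)
      exact winv _ _ _ _ (by rw [h4, hsg]) (by rw [h6, hsg]) h3.symm h5)
    (fun i h => by
      have h2 := S.Wt_split h
      rw [sum_red hc (hsg _) (fun z => S.Wt (sg (Sum.inl i)) z)] at h2
      exact h2)
    (fun j h => by
      have h2 := S.Wt_split h
      rw [sum_green hc (hsg _) (fun z => S.Wt (sg (Sum.inr j)) z)] at h2
      exact h2)
  apply S.sq_zero_of_p _ hu su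
  rw [pinv (sg (Sum.inr j)) x (by rw [hx, hsg])]
  exact hcount j

end assemble

/-- The main theorem. -/
theorem main {r g : ℕ} (hg : 2 ≤ g) (hrg : g < r) {T : SimpleGraph V}
    (hT : T.IsTree) {pr : V → Fin r ⊕ Fin g}
    (hc : IsCovering T (completeBipartiteGraph (Fin r) (Fin g)) pr) (b : Fin r ⊕ Fin g → ℝ)
    (a : Sym2 (Fin r ⊕ Fin g) → ℝ)
    (ha : ∀ e ∈ (completeBipartiteGraph (Fin r) (Fin g)).edgeSet, 0 < a e) (lam : ℝ)
    {u : V → ℂ} (hu : Memℓp u 2) (hH : ∀ x, liftOp T pr b a u x = lam * u x) {x : V} {j : Fin g}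
    (hx : pr x = Sum.inr j) : u x = 0 := by
  let _ : T.LocallyFinite := lfin hc
  have su : Summable (fun z => ‖u z‖ ^ 2) := by
    rw [memℓp_gen_iff (by norm_num)] at hu
    simpa using hu
  have sre : Sq (fun z => (u z).re) := by
    refine Summable.of_nonneg_of_le (fun z => sq_nonneg _) (fun z => ?_) su
    rw [← sq_abs]
    exact pow_le_pow_left₀ (abs_nonneg _) (Complex.abs_re_le_norm _) 2
  have sim : Sq (fun z => (u z).im) := by
    refine Summable.of_nonneg_of_le (fun z => sq_nonneg _) (fun z => ?_) su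
    rw [← sq_abs]
    exact pow_le_pow_left₀ (abs_nonneg _) (Complex.abs_im_le_norm _) 2
  have hsum : ∀ z, liftOp T pr b a u z = (b (pr z) : ℂ) * u z +
      ∑ y : T.neighborSet z, (a s(pr z, pr y) : ℂ) * u y := by
    intro z
    rw [liftOp, ← finsum_set_coe_eq_finsum_mem, finsum_eq_sum_of_fintype]
  have ere : (fun z => (u z).re) ∈ (mkSys hT hc b a ha lam).E := by
    rw [Sys.mem_E]
    intro z
    have h1 := congrArg Complex.re (hH z)
    rw [hsum] at h1
    simp only [Complex.add_re, Complex.re_sum, Complex.re_ofReal_mul] at h1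
    simp only [Sys.A_apply, Aop, nsum, mkSys]
    linear_combination h1
  have eim : (fun z => (u z).im) ∈ (mkSys hT hc b a ha lam).E := by
    rw [Sys.mem_E]
    intro z
    have h1 := congrArg Complex.im (hH z)
    rw [hsum] at h1
    simp only [Complex.add_im, Complex.im_sum, Complex.im_ofReal_mul] at h1
    simp only [Sys.A_apply, Aop, nsum, mkSys]
    linear_combination h1
  exact Complex.ext (green_zero hg hrg hT hc b a ha lam ere sre hx)
    (green_zero hg hrg hT hc b a ha lam eim sim hx)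

end Pool.Agent.T9h69.RG
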