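import Pool.Agent.T9h69.RG.L2

/-!
# Symmetric operators on a tree, the Green identity and cut-offs
-/

namespace Pool.Agent.T9h69.RG

open SimpleGraph

variable {V : Type*} {T : SimpleGraph V} [T.LocallyFinite]

/-- the sum over the neighbours -/
noncomputable def nsum (T : SimpleGraph V) [T.LocallyFinite] (c : V → V → ℝ) (u : V → ℝ)
    (z : V) : ℝ := ∑ y : T.neighborSet z, c z y * u y

/-- the operator -/
noncomputable def Aop (T : SimpleGraph V) [T.LocallyFinite] (be : V → ℝ) (c : V → V → ℝ)
    (u : V → ℝ) (z : V) : ℝ := be z * u z + nsum T c u z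

/-- swapping the two ends of an oriented edge -/
def swapE (T : SimpleGraph V) : (Σ z, T.neighborSet z) ≃ (Σ z, T.neighborSet z) where
  toFun p := ⟨p.2.1, ⟨p.1, p.2.2.symm⟩⟩
  invFun p := ⟨p.2.1, ⟨p.1, p.2.2.symm⟩⟩
  left_inv := fun ⟨_, _, _⟩ => rfl
  right_inv := fun ⟨_, _, _⟩ => rfl

section green
variable {c : V → V → ℝ} {M : ℝ} {De : ℕ}

lemma summable_fst (hdeg : ∀ z, Fintype.card (T.neighborSet z) ≤ De) {u : V → ℝ} (hu : Sq u) :
    Summable (fun p : (Σ z, T.neighborSet z) => u p.1 ^ 2) := by
  rw [summable_sigma_of_nonneg (fun p => sq_nonneg _)]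
  refine ⟨fun z => (hasSum_fintype _).summable, ?_⟩
  refine Summable.of_nonneg_of_le (fun z => tsum_nonneg (fun _ => sq_nonneg _)) (fun z => ?_)
    (Summable.mul_left (De : ℝ) hu)
  rw [tsum_fintype]
  simp only [Finset.sum_const, nsmul_eq_mul, Finset.card_univ]
  exact mul_le_mul_of_nonneg_right (by exact_mod_cast hdeg z) (sq_nonneg _)

lemma summable_snd (hdeg : ∀ z, Fintype.card (T.neighborSet z) ≤ De) {u : V → ℝ} (hu : Sq u) :
    Summable (fun p : (Σ z, T.neighborSet z) => u p.2 ^ 2) :=
  ((swapE T).summable_iff (f := fun p : (Σ z, T.neighborSet z) => u p.1 ^ 2)).mpr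
    (summable_fst hdeg hu)

lemma summable_edge (hdeg : ∀ z, Fintype.card (T.neighborSet z) ≤ De) (hM : ∀ y z, |c y z| ≤ M)
    {u v : V → ℝ} (hu : Sq u) (hv : Sq v) :
    Summable (fun p : (Σ z, T.neighborSet z) => u p.1 * (c p.1 p.2 * v p.2)) := by
  have h := ((summable_fst hdeg hu).add (summable_snd hdeg hv)).mul_left M
  refine Summable.of_norm_bounded h (fun p => ?_)
  rw [Real.norm_eq_abs, abs_mul, abs_mul]
  have h1 := hM p.1 p.2
  have h2 : |u p.1| * |v p.2| ≤ u p.1 ^ 2 + v p.2 ^ 2 := by
    rw [← sq_abs (u p.1), ← sq_abs (v p.2)]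
    nlinarith [sq_nonneg (|u p.1| - |v p.2|), sq_nonneg (|u p.1|), sq_nonneg (|v p.2|)]
  have h3 : 0 ≤ |u p.1| * |v p.2| := by positivity
  have h4 : 0 ≤ M := (abs_nonneg _).trans h1
  calc |u p.1| * (|c p.1 p.2| * |v p.2|) = |c p.1 p.2| * (|u p.1| * |v p.2|) := by ring
    _ ≤ M * (|u p.1| * |v p.2|) := mul_le_mul_of_nonneg_right h1 h3
    _ ≤ M * (u p.1 ^ 2 + v p.2 ^ 2) := mul_le_mul_of_nonneg_left h2 h4

lemma ip_nsum (hdeg : ∀ z, Fintype.card (T.neighborSet z) ≤ De) (hM : ∀ y z, |c y z| ≤ M)
    {u v : V → ℝ} (hu : Sq u) (hv : Sq v) :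
    Summable (fun z => u z * nsum T c v z) ∧
    ip u (nsum T c v) = ∑' p : (Σ z, T.neighborSet z), u p.1 * (c p.1 p.2 * v p.2) := by
  have h := summable_edge hdeg hM hu hv
  have e : ∀ z, u z * nsum T c v z = ∑' y : T.neighborSet z, u z * (c z y * v y) := by
    intro z
    rw [nsum, tsum_fintype, Finset.mul_sum]
  constructor
  · simp only [e]
    exact h.sigma
  · rw [ip, h.tsum_sigma]
    simp only [e]

/-- the Green identity -/
lemma green (hdeg : ∀ z, Fintype.card (T.neighborSet z) ≤ De) (hM : ∀ y z, |c y z| ≤ M)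
    (hsymm : ∀ y z, c y z = c z y) {be : V → ℝ} (hbe : ∀ z, |be z| ≤ M)
    {u v : V → ℝ} (hu : Sq u) (hv : Sq v) :
    ip u (Aop T be c v) = ip v (Aop T be c u) := by
  have key : ∀ {u v : V → ℝ}, Sq u → Sq v → ip u (Aop T be c v) =
      (∑' z, u z * (be z * v z)) + ip u (nsum T c v) := by
    intro u v hu hv
    have h1 : Summable (fun z => u z * (be z * v z)) := by
      refine Summable.of_norm_bounded ((Summable.norm (hu.mul hv)).mul_left M) (fun z => ?_)
      simp only [Real.norm_eq_abs, abs_mul]
      calc |u z| * (|be z| * |v z|) = |be z| * (|u z| * |v z|) := by ring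
        _ ≤ M * (|u z| * |v z|) := mul_le_mul_of_nonneg_right (hbe z) (by positivity)
    rw [ip, ip, ← h1.tsum_add (ip_nsum hdeg hM hu hv).1]
    congr 1
    funext z
    rw [Aop]; ring
  rw [key hu hv, key hv hu, (ip_nsum hdeg hM hu hv).2, (ip_nsum hdeg hM hv hu).2]
  congr 1
  · congr 1
    funext z
    ring
  · rw [← (swapE T).tsum_eq]
    congr 1
    funext p
    simp only [swapE, Equiv.coe_fn_mk]
    rw [hsymm]
    ring

end green

/-! ### Cut-offs -/

section cut
variable (hT : T.IsTree) (be : V → ℝ) (c : V → V → ℝ)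

/-- the vertices beyond `y`, seen from `x` -/
def side (hT : T.IsTree) (x y : V) : Set V := {z | fs hT x z = y}

omit [T.LocallyFinite] in
lemma mem_side {x y z : V} : z ∈ side hT x y ↔ fs hT x z = y := Iff.rfl

omit [T.LocallyFinite] in
lemma mem_side_self {x y : V} (h : T.Adj x y) : y ∈ side hT x y := fs_of_adj hT h

omit [T.LocallyFinite] in
lemma notMem_side {x y : V} (h : T.Adj x y) : x ∉ side hT x y := by
  intro h1
  rw [mem_side, fs_self] at h1
  exact h.ne h1

omit [T.LocallyFinite] in
lemma side_compl {x y : V} (h : T.Adj x y) : (side hT x y)ᶜ = side hT y x := by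
  ext z
  rw [Set.mem_compl_iff, mem_side, mem_side, fs_side hT h z, not_not]

open Classical in
/-- how the operator acts on a function which is cut off at an edge -/
lemma Aop_cut {x y : V} (h : T.Adj x y) (v : V → ℝ) (z : V) :
    Aop T be c ((side hT x y).indicator v) z = (side hT x y).indicator (Aop T be c v) z +
      (if z = x then c x y * v y else 0) - (if z = y then c y x * v x else 0) := by
  have hS : nsum T c ((side hT x y).indicator v) z = (side hT x y).indicator (nsum T c v) z +
      (if z = x then c x y * v y else 0) - (if z = y then c y x * v x else 0) := by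
    by_cases hz : z ∈ side hT x y
    · rw [Set.indicator_of_mem hz]
      have hzx : z ≠ x := by rintro rfl; exact notMem_side hT h hz
      rw [if_neg hzx, add_zero]
      by_cases hzy : z = y
      · rw [if_pos hzy]
        subst hzy
        rw [nsum, nsum, eq_sub_iff_add_eq]
        have e1 : c z x * v x = ∑ y' : T.neighborSet z,
            (if (y' : V) = x then c z y' * v y' else 0) := by
          rw [Finset.sum_eq_single (⟨x, h.symm⟩ : T.neighborSet z)]
          · simp
          · intro b _ hb
            rw [if_neg]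
            intro h'
            exact hb (Subtype.ext h')
          · intro h'; exact absurd (Finset.mem_univ _) h'
        rw [e1, ← Finset.sum_add_distrib]
        apply Finset.sum_congr rfl
        intro y' _
        by_cases hy' : (y' : V) = x
        · rw [if_pos hy', hy', Set.indicator_of_notMem (notMem_side hT h)]
          ring
        · rw [if_neg hy', Set.indicator_of_mem, add_zero]
          rw [mem_side, ← fs_eq_of_adj hT y'.2 hzx hy']
          exact hz
      · rw [if_neg hzy, sub_zero, nsum, nsum]
        apply Finset.sum_congr rfl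
        intro y' _
        rw [Set.indicator_of_mem]
        have hy' : (y' : V) ≠ x := by
          intro h'
          have h2 := y'.2
          rw [h'] at h2
          have h3 := fs_of_adj hT (SimpleGraph.Adj.symm h2)
          rw [mem_side, h3] at hz
          exact hzy hz
        rw [mem_side, ← fs_eq_of_adj hT y'.2 hzx hy']
        exact hz
    · rw [Set.indicator_of_notMem hz]
      have hzy : z ≠ y := by rintro rfl; exact hz (mem_side_self hT h)
      rw [if_neg hzy, sub_zero, zero_add, nsum]
      by_cases hzx : z = x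
      · rw [if_pos hzx]
        subst hzx
        rw [Finset.sum_eq_single (⟨y, h⟩ : T.neighborSet z)]
        · rw [Set.indicator_of_mem (mem_side_self hT h)]
        · intro b _ hb
          rw [Set.indicator_of_notMem, mul_zero]
          rw [mem_side, fs_of_adj hT b.2]
          intro h'
          exact hb (Subtype.ext h')
        · intro h'; exact absurd (Finset.mem_univ _) h'
      · rw [if_neg hzx]
        apply Finset.sum_eq_zero
        intro y' _
        rw [Set.indicator_of_notMem, mul_zero]
        by_cases hy' : (y' : V) = x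
        · rw [hy']; exact notMem_side hT h
        · rw [mem_side, ← fs_eq_of_adj hT y'.2 hzx hy']
          exact hz
  rw [Aop, hS]
  by_cases hz : z ∈ side hT x y
  · rw [Set.indicator_of_mem hz, Set.indicator_of_mem hz, Set.indicator_of_mem hz, Aop]
    ring
  · rw [Set.indicator_of_notMem hz, Set.indicator_of_notMem hz, Set.indicator_of_notMem hz]
    ring

end cut

end Pool.Agent.T9h69.RG
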