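import Pool.Agent.T9h69.RG.Defs

/-!
# Trees: first steps of paths, and lifts along coverings
-/

namespace Pool.Agent.T9h69.RG

open SimpleGraph

variable {V : Type*} {T : SimpleGraph V}

/-- the path between two vertices of a tree -/
noncomputable def pth (hT : T.IsTree) (x z : V) : T.Walk x z := (hT.existsUnique_path x z).choose

lemma pth_isPath (hT : T.IsTree) (x z : V) : (pth hT x z).IsPath :=
  (hT.existsUnique_path x z).choose_spec.1

lemma pth_unique (hT : T.IsTree) {x z : V} (p : T.Walk x z) (hp : p.IsPath) : p = pth hT x z :=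
  (hT.existsUnique_path x z).choose_spec.2 p hp

/-- the first step of the path from `x` to `z` -/
noncomputable def fs (hT : T.IsTree) (x z : V) : V := (pth hT x z).snd

lemma dicho (hT : T.IsTree) {x y z : V} (h : T.Adj y z) :
    pth hT x z = (pth hT x y).concat h ∨ pth hT x y = (pth hT x z).concat h.symm := by
  by_cases hy : y ∈ (pth hT x z).support
  · exact Or.inl (hT.isAcyclic.path_concat (pth_isPath hT x y) (pth_isPath hT x z) h hy)
  · right
    have hz := hT.isAcyclic.mem_support_of_ne_mem_support_of_adj_of_isPath (pth_isPath hT x y)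
      (pth_isPath hT x z) h hy
    exact hT.isAcyclic.path_concat (pth_isPath hT x z) (pth_isPath hT x y) h.symm hz

lemma pth_self (hT : T.IsTree) (x : V) : pth hT x x = Walk.nil :=
  (pth_unique hT Walk.nil Walk.IsPath.nil).symm

lemma fs_self (hT : T.IsTree) (x : V) : fs hT x x = x := by
  rw [fs, pth_self]; rfl

lemma fs_adj (hT : T.IsTree) {x z : V} (h : z ≠ x) : T.Adj x (fs hT x z) := by
  rw [fs]
  exact Walk.adj_snd (Walk.not_nil_of_ne h.symm)

lemma fs_eq_self_iff (hT : T.IsTree) {x z : V} : fs hT x z = x ↔ z = x := by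
  constructor
  · intro h
    by_contra hne
    have := fs_adj hT hne
    rw [h] at this
    exact T.loopless.irrefl _ this
  · rintro rfl
    exact fs_self hT z

lemma fs_of_adj (hT : T.IsTree) {x y : V} (h : T.Adj x y) : fs hT x y = y := by
  have : pth hT x y = Walk.cons h Walk.nil := by
    refine (pth_unique hT _ ?_).symm
    simp [h.ne]
  rw [fs, this]; rfl

lemma snd_concat {x y z : V} (p : T.Walk x y) (h : T.Adj y z) (hp : y ≠ x) :
    (p.concat h).snd = p.snd := by
  cases p with
  | nil => exact absurd rfl hp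
  | cons h' p' => rw [Walk.concat_cons, Walk.snd_cons, Walk.snd_cons]

/-- the first step does not change along edges which avoid `x` -/
lemma fs_eq_of_adj (hT : T.IsTree) {x y z : V} (h : T.Adj y z) (hy : y ≠ x) (hz : z ≠ x) :
    fs hT x y = fs hT x z := by
  rcases dicho hT (x := x) h with h1 | h1
  · rw [fs, fs, h1, snd_concat _ _ hy]
  · rw [fs, fs, h1, snd_concat _ _ hz]

/-- the two sides of an edge are complementary -/
lemma fs_side (hT : T.IsTree) {x y : V} (h : T.Adj x y) (z : V) :
    fs hT x z = y ↔ fs hT y z ≠ x := by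
  have key : pth hT x z = Walk.cons h (pth hT y z) ∨ pth hT y z = Walk.cons h.symm (pth hT x z) := by
    have e : ∀ u w : V, pth hT u w = (pth hT w u).reverse := fun u w =>
      (pth_unique hT _ (pth_isPath hT w u).reverse).symm
    rcases dicho hT (x := z) h.symm with h1 | h1
    · left
      rw [e x z, h1, e y z]
      simp
    · right
      rw [e y z, h1, e x z]
      simp
  rcases key with h1 | h1
  · have h2 : fs hT x z = y := by rw [fs, h1, Walk.snd_cons]
    refine ⟨fun _ h3 => ?_, fun _ => h2⟩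
    have h4 := pth_isPath hT x z
    rw [h1, Walk.cons_isPath_iff] at h4
    apply h4.2
    rw [← h3]
    exact Walk.getVert_mem_support _ _
  · have h2 : fs hT y z = x := by rw [fs, h1, Walk.snd_cons]
    refine ⟨fun h3 _ => ?_, fun h3 => absurd h2 h3⟩
    have h4 := pth_isPath hT y z
    rw [h1, Walk.cons_isPath_iff] at h4
    apply h4.2
    rw [← h3]
    exact Walk.getVert_mem_support _ _

/-! ### Coverings -/

variable {W : Type*} {G : SimpleGraph W} {pr : V → W}

lemma IsCovering.adj (hc : IsCovering T G pr) {x y : V} (h : T.Adj x y) :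
    G.Adj (pr x) (pr y) := (hc x).mapsTo h

lemma IsCovering.inj (hc : IsCovering T G pr) {x y z : V} (hy : T.Adj x y) (hz : T.Adj x z)
    (h : pr y = pr z) : y = z := (hc x).injOn hy hz h

open Classical in
/-- the neighbour of `x` over `w` -/
noncomputable def nb (T : SimpleGraph V) (pr : V → W) (x : V) (w : W) : V :=
  if h : ∃ y, T.Adj x y ∧ pr y = w then h.choose else x

lemma nb_spec (hc : IsCovering T G pr) {x : V} {w : W} (h : G.Adj (pr x) w) :
    T.Adj x (nb T pr x w) ∧ pr (nb T pr x w) = w := by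
  have h1 : ∃ y, T.Adj x y ∧ pr y = w := by
    obtain ⟨y, hy, hyw⟩ := (hc x).surjOn h
    exact ⟨y, hy, hyw⟩
  rw [nb, dif_pos h1]
  exact h1.choose_spec

lemma nb_eq (hc : IsCovering T G pr) {x y : V} (h : T.Adj x y) : nb T pr x (pr y) = y := by
  have := nb_spec hc (hc.adj h)
  exact hc.inj this.1 h this.2

/-- lifting a walk to another starting point -/
noncomputable def liftW (T : SimpleGraph V) (pr : V → W) : ∀ {x y : V}, T.Walk x y → V → V
  | _, _, Walk.nil, x' => x'
  | _, _, Walk.cons' _ u _ _ p, x' => liftW T pr p (nb T pr x' (pr u))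

lemma liftW_pr (hc : IsCovering T G pr) {x y : V} (p : T.Walk x y) (x' : V) (h : pr x' = pr x) :
    pr (liftW T pr p x') = pr y := by
  induction p generalizing x' with
  | nil => exact h
  | cons hxu p ih =>
    rw [liftW]
    apply ih
    exact (nb_spec hc (by rw [h]; exact hc.adj hxu)).2

lemma liftW_concat (hc : IsCovering T G pr) {x y z : V} (p : T.Walk x y) (hyz : T.Adj y z)
    (x' : V) (h : pr x' = pr x) :
    liftW T pr (p.concat hyz) x' = nb T pr (liftW T pr p x') (pr z) := by
  induction p generalizing x' with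
  | nil => rfl
  | cons hxu p ih =>
    rw [Walk.concat_cons, liftW, liftW]
    apply ih
    exact (nb_spec hc (by rw [h]; exact hc.adj hxu)).2

/-- the lift of the identity which moves `x` to `x'` -/
noncomputable def mv (hT : T.IsTree) (pr : V → W) (x x' : V) (z : V) : V :=
  liftW T pr (pth hT x z) x'

lemma mv_base (hT : T.IsTree) (x x' : V) : mv hT pr x x' x = x' := by
  rw [mv, pth_self]; rfl

lemma mv_pr (hT : T.IsTree) (hc : IsCovering T G pr) {x x' : V} (h : pr x' = pr x) (z : V) :
    pr (mv hT pr x x' z) = pr z := liftW_pr hc _ _ h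

lemma mv_adj (hT : T.IsTree) (hc : IsCovering T G pr) {x x' : V} (h : pr x' = pr x) {y z : V}
    (hyz : T.Adj y z) : T.Adj (mv hT pr x x' y) (mv hT pr x x' z) := by
  have key : ∀ {y z : V} (hyz : T.Adj y z), pth hT x z = (pth hT x y).concat hyz →
      T.Adj (mv hT pr x x' y) (mv hT pr x x' z) := by
    intro y z hyz h1
    rw [mv, mv, h1, liftW_concat hc _ _ _ h]
    apply (nb_spec hc _).1
    rw [liftW_pr hc _ _ h]
    exact hc.adj hyz
  rcases dicho hT (x := x) hyz with h1 | h1
  · exact key hyz h1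
  · exact (key hyz.symm h1).symm

/-- two lifts which agree at one vertex agree -/
lemma lift_unique (hc : IsCovering T G pr) (f g : V → V)
    (hf : ∀ {y z}, T.Adj y z → T.Adj (f y) (f z)) (hg : ∀ {y z}, T.Adj y z → T.Adj (g y) (g z))
    (hfp : ∀ z, pr (f z) = pr z) (hgp : ∀ z, pr (g z) = pr z) {x y : V} (p : T.Walk x y)
    (h : f x = g x) : f y = g y := by
  induction p with
  | nil => exact h
  | cons hxu p ih =>
    apply ih
    have h1 := hf hxu
    have h2 := hg hxu
    rw [← h] at h2
    exact hc.inj h1 h2 (by rw [hfp, hgp])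

/-- There is an automorphism of the tree over `G` which moves `x` to `x'`. -/
lemma exists_auto (hT : T.IsTree) (hc : IsCovering T G pr) {x x' : V} (h : pr x' = pr x) :
    ∃ φ : V ≃ V, (∀ y z, T.Adj (φ y) (φ z) ↔ T.Adj y z) ∧ (∀ z, pr (φ z) = pr z) ∧ φ x = x' := by
  have a1 : ∀ {y z}, T.Adj y z → T.Adj (mv hT pr x x' y) (mv hT pr x x' z) := mv_adj hT hc h
  have a2 : ∀ {y z}, T.Adj y z → T.Adj (mv hT pr x' x y) (mv hT pr x' x z) :=
    mv_adj hT hc h.symm
  have i1 : ∀ z, mv hT pr x' x (mv hT pr x x' z) = z := fun z =>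
    lift_unique hc (fun z => mv hT pr x' x (mv hT pr x x' z)) id (fun h1 => a2 (a1 h1))
      (fun h1 => h1) (fun z => by rw [mv_pr hT hc h.symm, mv_pr hT hc h]) (fun z => rfl)
      (pth hT x z) (by simp only [mv_base]; rfl)
  have i2 : ∀ z, mv hT pr x x' (mv hT pr x' x z) = z := fun z =>
    lift_unique hc (fun z => mv hT pr x x' (mv hT pr x' x z)) id (fun h1 => a1 (a2 h1))
      (fun h1 => h1) (fun z => by rw [mv_pr hT hc h, mv_pr hT hc h.symm]) (fun z => rfl)
      (pth hT x' z) (by simp only [mv_base]; rfl)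
  refine ⟨⟨mv hT pr x x', mv hT pr x' x, i1, i2⟩, ?_, ?_, ?_⟩
  · intro y z
    refine ⟨fun h1 => ?_, fun h1 => a1 h1⟩
    have := a2 h1
    simp only [Equiv.coe_fn_mk] at this
    rwa [i1, i1] at this
  · intro z
    exact mv_pr hT hc h z
  · exact mv_base hT x x'

/-- first steps and automorphisms -/
lemma fs_auto (hT : T.IsTree) (φ : V ≃ V) (hφ : ∀ y z, T.Adj (φ y) (φ z) ↔ T.Adj y z) (x z : V) :
    fs hT (φ x) (φ z) = φ (fs hT x z) := by
  let F : T →g T := ⟨φ, fun {y z} h => (hφ y z).mpr h⟩
  have h1 : (pth hT x z).map F = pth hT (φ x) (φ z) :=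
    pth_unique hT _ ((pth_isPath hT x z).map φ.injective)
  rw [fs, fs, ← h1, Walk.snd, Walk.snd]
  simp only [Walk.getVert_map]
  rfl

end Pool.Agent.T9h69.RG
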